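import Mathlib
import Pool.Agent.R107.P235

namespace Pool.Agent.Results.MP_f836a2_nt.ZeroSet

open PowerSeries PowerSeries.WithPiTopology

/-- `(q; q)_∞` -/
noncomputable def qq : ℤ⟦X⟧ := ∏' n : ℕ, (1 - X ^ (n + 1))

/-- `(q, q^6, q^7; q^7)_∞`, the product of `1 - q^n` over the `n ≥ 1` with `n ≡ 0, 1, 6 mod 7`. -/
noncomputable def th : ℤ⟦X⟧ :=
  ∏' n : ℕ, (if (n + 1) % 7 = 0 ∨ (n + 1) % 7 = 1 ∨ (n + 1) % 7 = 6 then 1 - X ^ (n + 1) else 1)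

/-- The truncated pentagonal sum `P_k(q) = ∑_{i = 1-k}^{k} (-1)^i q^{i(3i-1)/2}`. -/
noncomputable def Pk (k : ℕ) : ℤ⟦X⟧ :=
  ∑ i ∈ Finset.Icc (1 - (k : ℤ)) k, (-1) ^ i.natAbs * X ^ (i * (3 * i - 1) / 2).toNat

/-- `F_k(q) = (-1)^{k-1} (P_k(q) / (q;q)_∞ - 1) (q, q^6, q^7; q^7)_∞`, for `k ≥ 1`. -/
noncomputable def F (k : ℕ) : ℤ⟦X⟧ := (-1) ^ (k - 1) * (Pk k * invOfUnit qq 1 - 1) * th

/-- `c_k(n)`, the coefficient of `q^n` in `F_k`. -/
noncomputable def c (k n : ℕ) : ℤ := coeff n (F k)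

/-- `N_k = k(3k+1)/2` -/
def Nk (k : ℕ) : ℕ := k * (3 * k + 1) / 2

open Pool.Agent.R107 Pool.Agent.R107.QT Pool.Agent.R107.QProd
open Pool.Agent.R107.TruncTheta (R coeff_R_nonneg coeff_mul_nonneg)

/-- the residues of the theta product -/
def p0 (n : ℕ) : Prop := n % 7 = 0 ∨ n % 7 = 1 ∨ n % 7 = 6

instance : DecidablePred p0 := fun n => by unfold p0; infer_instance

/-- the complementary residues -/
def p1 (n : ℕ) : Prop := n % 7 = 2 ∨ n % 7 = 3 ∨ n % 7 = 4 ∨ n % 7 = 5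

instance : DecidablePred p1 := fun n => by unfold p1; infer_instance

lemma th_eq : th = E p0 := rfl

lemma qq_eq : qq = E p0 * E p1 := by
  unfold qq
  apply E_split
  intro n
  unfold p0 p1
  omega

lemma inv_qq : invOfUnit qq 1 = R p0 * R p1 := by
  have hc : constantCoeff qq = ((1 : ℤˣ) : ℤ) := by
    rw [qq_eq, map_mul, constantCoeff_E, constantCoeff_E]
    rfl
  have h1 := mul_invOfUnit qq 1 hc
  have h2 : qq * (R p0 * R p1) = 1 := by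
    rw [qq_eq]
    calc E p0 * E p1 * (R p0 * R p1) = (E p0 * R p0) * (E p1 * R p1) := by ring
      _ = 1 := by rw [E_mul_R, E_mul_R, one_mul]
  calc invOfUnit qq 1 = (qq * (R p0 * R p1)) * invOfUnit qq 1 := by rw [h2, one_mul]
    _ = (R p0 * R p1) * (qq * invOfUnit qq 1) := by ring
    _ = _ := by rw [h1, mul_one]

lemma F_eq (k : ℕ) : F k = (-1) ^ (k - 1) * (Pk k - qq) * R p1 := by
  unfold F
  rw [inv_qq, th_eq]
  have h1 := E_mul_R p0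
  have h2 := E_mul_R p1
  have h3 : E p0 = qq * R p1 := by
    rw [qq_eq, mul_assoc, h2, mul_one]
  calc (-1) ^ (k - 1) * (Pk k * (R p0 * R p1) - 1) * E p0 =
      (-1) ^ (k - 1) * (Pk k * R p1 * (E p0 * R p0) - E p0) := by ring
    _ = (-1) ^ (k - 1) * (Pk k * R p1 - qq * R p1) := by rw [h1, mul_one, ← h3]
    _ = _ := by ring

lemma Pk_eq (k : ℕ) : Pk k = ∑ m ∈ Finset.range k,
    (-1) ^ m * ((X : ℤ⟦X⟧) ^ pentagonal (-(m : ℤ)) - X ^ pentagonal ((m : ℤ) + 1)) := by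
  induction k with
  | zero => simp [Pk]
  | succ k ih =>
    rw [Finset.sum_range_succ, ← ih]
    unfold Pk
    have h : Finset.Icc (1 - ((k + 1 : ℕ) : ℤ)) ((k + 1 : ℕ) : ℤ) =
        insert (-(k : ℤ)) (insert ((k : ℤ) + 1) (Finset.Icc (1 - (k : ℤ)) k)) := by
      ext i
      simp only [Finset.mem_Icc, Finset.mem_insert]
      push_cast
      omega
    rw [h, Finset.sum_insert (by
      simp only [Finset.mem_insert, Finset.mem_Icc]
      omega), Finset.sum_insert (by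
      simp only [Finset.mem_Icc]
      omega)]
    have e1 : (-(k : ℤ)).natAbs = k := by omega
    have e2 : ((k : ℤ) + 1).natAbs = k + 1 := by omega
    rw [e1, e2, ← pentagonal_def, ← pentagonal_def, pow_succ]
    ring

lemma pent_a (J : ℕ) : pentagonal (-(J : ℤ)) = (a (P235.dd 1) J).toNat := by
  have h1 := two_mul_natCast_pentagonal_neg (J : ℤ)
  have h2 := two_tri' J
  have h3 := a_nonneg P235.ok1 J
  have h4 : 2 * a (P235.dd 1) J = J * (3 * J + 1) := by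
    unfold a
    have e1 : ((P235.dd 1).Rr : ℤ) = 3 := rfl
    have e2 : ((P235.dd 1).S : ℤ) = 1 := rfl
    rw [e1, e2]
    linear_combination 3 * h2
  omega

lemma pent_b (J : ℕ) : pentagonal ((J : ℤ) + 1) = (b (P235.dd 1) J).toNat := by
  have h1 := two_mul_natCast_pentagonal ((J : ℤ) + 1)
  have h2 := two_tri' J
  have h3 := b_nonneg P235.ok1 J
  have h4 : 2 * b (P235.dd 1) J = (J + 1) * (3 * (J + 1) - 1) := by
    unfold b
    have e1 : ((P235.dd 1).Rr : ℤ) = 3 := rfl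
    have e2 : ((P235.dd 1).S : ℤ) = 1 := rfl
    rw [e1, e2]
    linear_combination 3 * h2
  omega

lemma tail (k : ℕ) : qq - Pk k = (-1) ^ k * U (P235.dd 1) k := by
  have h1 : HasSum (fun m : ℕ => (-1) ^ m *
      ((X : ℤ⟦X⟧) ^ pentagonal (-(m : ℤ)) - X ^ pentagonal ((m : ℤ) + 1))) qq := by
    have := hasSum_pow_pentagonal_sub_pentagonalSeries ℤ
    rw [← tprod_one_sub_X_pow] at this
    exact this
  have h2 := (hasSum_nat_add_iff' k).2 h1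
  rw [← Pk_eq] at h2
  have h3 := (hasSum_U P235.ok1 k).mul_left ((-1 : ℤ⟦X⟧) ^ k)
  have h4 : ∀ i : ℕ, (-1 : ℤ⟦X⟧) ^ k * ((-1) ^ i *
      (X ^ (a (P235.dd 1) (k + i)).toNat - X ^ (b (P235.dd 1) (k + i)).toNat)) =
      (-1) ^ (i + k) * ((X : ℤ⟦X⟧) ^ pentagonal (-((i + k : ℕ) : ℤ)) -
        X ^ pentagonal (((i + k : ℕ) : ℤ) + 1)) := by
    intro i
    rw [pent_a, pent_b, add_comm k i, pow_add]
    ring
  simp only [h4] at h3
  exact h2.unique h3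

lemma F_eq_U (k : ℕ) (hk : 1 ≤ k) : F k = U (P235.dd 1) k * R p1 := by
  have h := tail k
  have h1 : Pk k - qq = -((-1) ^ k * U (P235.dd 1) k) := by rw [← h]; ring
  rw [F_eq, h1]
  obtain ⟨j, rfl⟩ : ∃ j, k = j + 1 := ⟨k - 1, by omega⟩
  rw [show j + 1 - 1 = j by omega, pow_succ]
  have e : ((-1 : ℤ⟦X⟧) ^ j) * (-1) ^ j = 1 := by rw [← mul_pow]; simp
  linear_combination (U (P235.dd 1) (j + 1) * R p1) * e

/-- the remaining parts -/
abbrev pB (i : ℕ) : Prop := ((p1 i ∧ i ≠ 2) ∧ i ≠ 3) ∧ i ≠ 5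

lemma F_eq1 (k : ℕ) (hk : 1 ≤ k) : F k = (P (P235.dd 1) * U (P235.dd 1) k) * R pB := by
  rw [F_eq_U k hk, R_eq_P_mul P235.ok1 p1 (by decide) (by decide) (by decide)]
  have : (R fun i => ((p1 i ∧ i ≠ (P235.dd 1).al) ∧ i ≠ (P235.dd 1).be) ∧
      i ≠ (P235.dd 1).ga) = R pB := rfl
  rw [this]
  ring

lemma pB_ge (i : ℕ) (h : pB i) (h0 : 0 < i) : 4 ≤ i := by
  obtain ⟨⟨⟨h1, h2⟩, h3⟩, h4⟩ := h
  unfold p1 at h1
  omega

lemma Nk_eq (k : ℕ) : a (P235.dd 1) k = (Nk k : ℤ) := by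
  have h := pent_a k
  have h1 := two_mul_natCast_pentagonal_neg (k : ℤ)
  have h3 := a_nonneg P235.ok1 k
  have h4 : 2 * Nk k = k * (3 * k + 1) := by
    unfold Nk
    apply Nat.mul_div_cancel'
    rcases Nat.even_or_odd k with ⟨r, hr⟩ | ⟨r, hr⟩
    · exact Dvd.dvd.mul_right ⟨r, by omega⟩ _
    · exact Dvd.dvd.mul_left ⟨3 * r + 2, by omega⟩ _
  have h5 : 2 * (Nk k : ℤ) = k * (3 * k + 1) := by exact_mod_cast h4
  omega

lemma c_zero (k n : ℕ) (hk : 1 ≤ k) (h : n < Nk k ∨ n = Nk k + 1) : c k n = 0 := by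
  unfold c
  rw [F_eq1 k hk, P235.coeff_mul_of_gap (constantCoeff_R pB) 4 n
    (fun i h0 h1 => P235.coeff_R_zero pB 4 pB_ge i h0 h1)]
  · apply P235.van k n hk
    rw [Nk_eq]
    omega
  · intro i hi
    apply P235.van k i hk
    rw [Nk_eq]
    omega

lemma c_pos3 (k n : ℕ) (hk : 3 ≤ k) (h1 : Nk k ≤ n) (h2 : n ≠ Nk k + 1) : 1 ≤ c k n := by
  have hnn : ∀ n, 0 ≤ coeff n (P (P235.dd 1) * U (P235.dd 1) k) := by
    intro m
    by_cases h : Nk k ≤ m ∧ m ≠ Nk k + 1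
    · have := P235.pos3 k m hk (by rw [Nk_eq]; omega) (by rw [Nk_eq]; omega)
      omega
    · rw [P235.van k m (by omega) (by rw [Nk_eq]; omega)]
  unfold c
  rw [F_eq1 k (by omega)]
  have h3 := P235.pos3 k n hk (by rw [Nk_eq]; omega) (by rw [Nk_eq]; omega)
  exact h3.trans (P235.coeff_mul_ge hnn (fun n => coeff_R_nonneg _ n) (constantCoeff_R pB) n)

lemma gs2 : ∀ n : ℕ, n < 24 → 0 ≤ gs 4 (fun m => cc (P235.dd 1) 6 2 (m : ℤ)) n ∧
    (7 ≤ n → n ≠ 8 → 1 ≤ gs 4 (fun m => cc (P235.dd 1) 6 2 (m : ℤ)) n) := by decide +kernel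

lemma c_pos2 (n : ℕ) (h1 : 7 ≤ n) (h2 : n ≠ 8) : 1 ≤ c 2 n := by
  have hf : ∀ m < 24, coeff m (P (P235.dd 1) * U (P235.dd 1) 2) =
      (fun m : ℕ => cc (P235.dd 1) 6 2 (m : ℤ)) m := by
    intro m hm
    apply P235.coeff_eq_cc
    have : a (P235.dd 1) (2 + 6) = 100 := by decide +kernel
    rw [this]
    omega
  have hg := geo_lower 4 (by norm_num) _ 24 1 (by norm_num) (fun n hn => P235.pos2 n hn)
    (fun n hn => by
      rw [coeff_geo_eq 4 (by norm_num) _ _ 24 hf n hn]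
      exact (gs2 n hn).1)
  have h4 : pB 4 := by decide
  unfold c
  rw [F_eq1 2 (by omega), R_eq_geo_mul pB 4 (by norm_num) h4]
  have e : P (P235.dd 1) * U (P235.dd 1) 2 * (geo 4 * R fun i => pB i ∧ i ≠ 4) =
      (geo 4 * (P (P235.dd 1) * U (P235.dd 1) 2)) * R fun i => pB i ∧ i ≠ 4 := by ring
  rw [e]
  refine le_trans ?_ (P235.coeff_mul_ge hg.1 (fun n => coeff_R_nonneg _ n)
    (constantCoeff_R _) n)
  rcases Nat.lt_or_ge n 24 with h | h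
  · rw [coeff_geo_eq 4 (by norm_num) _ _ 24 hf n h]
    exact (gs2 n h).2 h1 h2
  · exact hg.2 n h

/-- the series for `k = 1` with the parts 2, 3, 5 -/
noncomputable def f1 : ℤ⟦X⟧ := P (P235.dd 1) * U (P235.dd 1) 1

/-- computable values -/
def v1 (m : ℕ) : ℤ := cc (P235.dd 1) 8 1 (m : ℤ)

lemma f1_eq (m : ℕ) (hm : m < 82) : coeff m f1 = v1 m := by
  apply P235.coeff_eq_cc
  have : a (P235.dd 1) (1 + 8) = 126 := by decide +kernel
  rw [this]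
  omega

lemma gs4a : ∀ n : ℕ, n < 82 → 20 ≤ n → 1 ≤ gs 4 v1 n := by decide +kernel

lemma f4_pos (n : ℕ) (hn : 20 ≤ n) : 1 ≤ coeff n (geo 4 * f1) := by
  induction n using Nat.strong_induction_on with
  | _ n ih =>
    rcases Nat.lt_or_ge n 82 with h | h
    · rw [coeff_geo_eq 4 (by norm_num) f1 v1 82 f1_eq n h]
      exact gs4a n h hn
    · rw [coeff_geo_mul 4 (by norm_num), if_pos (by omega)]
      have h1 := ih (n - 4) (by omega) (by omega)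
      have h2 : 1 ≤ coeff n f1 := P235.pos1 n h
      omega

lemma gs9 : ∀ n : ℕ, n < 20 → 0 ≤ gs 9 (fun m => gs 4 v1 m) n ∧
    (14 ≤ n → 1 ≤ gs 9 (fun m => gs 4 v1 m) n) := by decide +kernel

lemma f4_eq (m : ℕ) (hm : m < 20) : coeff m (geo 4 * f1) = (fun m => gs 4 v1 m) m :=
  coeff_geo_eq 4 (by norm_num) f1 v1 82 f1_eq m (by omega)

lemma f9_nonneg : (∀ n, 0 ≤ coeff n (geo 9 * (geo 4 * f1))) ∧
    ∀ n, 20 ≤ n → 1 ≤ coeff n (geo 9 * (geo 4 * f1)) :=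
  geo_lower 9 (by norm_num) _ 20 1 (by norm_num) (fun n hn => f4_pos n hn) (fun n hn => by
    rw [coeff_geo_eq 9 (by norm_num) _ _ 20 f4_eq n hn]
    exact (gs9 n hn).1)

lemma f9_pos (n : ℕ) (hn : 14 ≤ n) : 1 ≤ coeff n (geo 9 * (geo 4 * f1)) := by
  rcases Nat.lt_or_ge n 20 with h | h
  · rw [coeff_geo_eq 9 (by norm_num) _ _ 20 f4_eq n h]
    exact (gs9 n h).2 hn
  · exact f9_nonneg.2 n h

/-- computable values -/
def v11 (n : ℕ) : ℤ := gs 11 (fun m => gs 9 (fun m => gs 4 v1 m) m) n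

lemma gs11 : ∀ n : ℕ, n < 14 → 0 ≤ v11 n := by decide +kernel

lemma gs11b : ∀ n : ℕ, n < 14 → (n < 2 ∨ n = 3 ∨ n = 5 ∨ n = 7 ∨ n = 9 ∨ 1 ≤ v11 n) := by
  decide +kernel

lemma gs11c : v11 5 = 0 ∧ v11 7 = 0 ∧ v11 9 = 0 := by decide +kernel

lemma f9_eq (m : ℕ) (hm : m < 14) :
    coeff m (geo 9 * (geo 4 * f1)) = (fun m => gs 9 (fun m => gs 4 v1 m) m) m :=
  coeff_geo_eq 9 (by norm_num) _ _ 20 f4_eq m (by omega)

lemma f11_nonneg : (∀ n, 0 ≤ coeff n (geo 11 * (geo 9 * (geo 4 * f1)))) ∧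
    ∀ n, 14 ≤ n → 1 ≤ coeff n (geo 11 * (geo 9 * (geo 4 * f1))) :=
  geo_lower 11 (by norm_num) _ 14 1 (by norm_num) (fun n hn => f9_pos n hn) (fun n hn => by
    rw [coeff_geo_eq 11 (by norm_num) _ _ 14 f9_eq n hn]
    exact gs11 n hn)

lemma F1_eq : F 1 = (geo 11 * (geo 9 * (geo 4 * f1))) *
    R fun i => ((pB i ∧ i ≠ 4) ∧ i ≠ 9) ∧ i ≠ 11 := by
  rw [F_eq1 1 le_rfl, R_eq_geo_mul pB 4 (by norm_num) (by decide),
    R_eq_geo_mul (fun i => pB i ∧ i ≠ 4) 9 (by norm_num) (by decide),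
    R_eq_geo_mul (fun i => (pB i ∧ i ≠ 4) ∧ i ≠ 9) 11 (by norm_num) (by decide)]
  unfold f1
  ring

lemma c_pos1 (n : ℕ) (h1 : 2 ≤ n) (h3 : n ≠ 3) (h5 : n ≠ 5) (h7 : n ≠ 7) (h9 : n ≠ 9) :
    1 ≤ c 1 n := by
  unfold c
  rw [F1_eq]
  refine le_trans ?_ (P235.coeff_mul_ge f11_nonneg.1 (fun n => coeff_R_nonneg _ n)
    (constantCoeff_R _) n)
  rcases Nat.lt_or_ge n 14 with h | h
  · rw [coeff_geo_eq 11 (by norm_num) _ _ 14 f9_eq n h]
    have h11 : n < 2 ∨ n = 3 ∨ n = 5 ∨ n = 7 ∨ n = 9 ∨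
      1 ≤ gs 11 (fun m => gs 9 (fun m => gs 4 v1 m) m) n := gs11b n h
    omega
  · exact f11_nonneg.2 n h

lemma c_zero1 (n : ℕ) (h : n = 5 ∨ n = 7 ∨ n = 9) : c 1 n = 0 := by
  unfold c
  rw [F1_eq, P235.coeff_mul_of_gap (constantCoeff_R _) 10 n
    (fun i h0 h1 => P235.coeff_R_zero _ 10 (fun i hi h0 => by
      obtain ⟨⟨⟨hp, h4⟩, h9⟩, h11⟩ := hi
      obtain ⟨⟨⟨hp1, h2⟩, h3⟩, h5⟩ := hp
      unfold p1 at hp1
      omega) i h0 h1) (fun i hi => by omega)]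
  rw [coeff_geo_eq 11 (by norm_num) _ _ 14 f9_eq n (by omega)]
  rcases h with rfl | rfl | rfl
  · exact gs11c.1
  · exact gs11c.2.1
  · exact gs11c.2.2

lemma Nk_one : Nk 1 = 2 := rfl
lemma Nk_two : Nk 2 = 7 := rfl

/-- **Complete description of the signs.** For all `k ≥ 1` and `n ≥ 0`: `c_k(n) ≥ 0`, and
`c_k(n) = 0` exactly when `n < N_k` or `n = N_k + 1` or `k = 1` and `n ∈ {5, 7, 9}`. In
particular the statement of the question fails, but only at `(k, n) = (1, 5), (1, 7), (1, 9)`. -/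
theorem result :
    (∀ k n : ℕ, 1 ≤ k → 0 ≤ c k n ∧
      (c k n = 0 ↔ n < Nk k ∨ n = Nk k + 1 ∨ (k = 1 ∧ (n = 5 ∨ n = 7 ∨ n = 9)))) ∧
    ¬ (∀ k : ℕ, 1 ≤ k → (∀ n, n < Nk k ∨ n = Nk k + 1 → c k n = 0) ∧
      (∀ n, n = Nk k ∨ Nk k + 2 ≤ n → 0 < c k n)) := by
  have main : ∀ k n : ℕ, 1 ≤ k → 0 ≤ c k n ∧
      (c k n = 0 ↔ n < Nk k ∨ n = Nk k + 1 ∨ (k = 1 ∧ (n = 5 ∨ n = 7 ∨ n = 9))) := by
    intro k n hk
    by_cases h : n < Nk k ∨ n = Nk k + 1 ∨ (k = 1 ∧ (n = 5 ∨ n = 7 ∨ n = 9))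
    · have h0 : c k n = 0 := by
        rcases h with h | h | ⟨rfl, h⟩
        · exact c_zero k n hk (Or.inl h)
        · exact c_zero k n hk (Or.inr h)
        · exact c_zero1 n h
      exact ⟨h0.ge, fun _ => h, fun _ => h0⟩
    · have h1 : 1 ≤ c k n := by
        push Not at h
        obtain ⟨h1, h2, h3⟩ := h
        rcases Nat.lt_or_ge k 3 with hk3 | hk3
        · have : k = 1 ∨ k = 2 := by omega
          rcases this with rfl | rfl
          · rw [Nk_one] at h1 h2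
            have := h3 rfl
            exact c_pos1 n (by omega) (by omega) this.1 this.2.1 this.2.2
          · rw [Nk_two] at h1 h2
            exact c_pos2 n (by omega) (by omega)
        · exact c_pos3 k n hk3 h1 h2
      exact ⟨by omega, fun h2 => by omega, fun h2 => absurd h2 h⟩
  refine ⟨main, fun h => ?_⟩
  have h1 := (h 1 le_rfl).2 5 (Or.inr (by rw [Nk_one]; norm_num))
  have h2 := c_zero1 5 (Or.inl rfl)
  omega

end Pool.Agent.Results.MP_f836a2_nt.ZeroSet
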